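import Pool.Agent.Q99.KN.Stm1

/-!
# Functional calculus of the Casimir operator by residues at the lattice points
-/

set_option autoImplicit false

namespace Pool.Agent.Q261.KN

open Matrix Finset
open Pool.Agent.H550R3.Jones (WM IsMod IsInt Gen br brf W irr)
open Pool.Agent.W715.VC (rt)
open Pool.Agent.Q191.FT (Cas lam Sc)
open Pool.Agent.W719.BS (D)
open Pool.Agent.Q99.KN

theorem diff_sn {N : ℕ} {f : ℂ → ℂ} (hf : Differentiable ℂ f) :
    Differentiable ℂ fun z => sn N (f z) := by
  unfold sn
  fun_prop

theorem diff_bc {N : ℕ} {f : ℂ → ℂ} (hf : Differentiable ℂ f) (k : ℕ) :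
    Differentiable ℂ fun z => bc N (f z) k := by
  unfold bc
  have h1 : Differentiable ℂ fun z => ∏ j ∈ range k, sn N (f z - j) := by
    have h2 : (fun z => ∏ j ∈ range k, sn N (f z - j)) =
        ∏ j ∈ range k, fun z => sn N (f z - j) := by
      ext z
      rw [Finset.prod_apply]
    rw [h2]
    exact Differentiable.finset_prod fun j _ => diff_sn (hf.sub_const _)
  exact h1.div_const _

theorem diff_Wk (N A β C : ℕ) : Differentiable ℂ fun z => Wk N z A β C := by
  unfold Wk
  have h1 : Differentiable ℂ fun z : ℂ => ((N : ℂ) - 1 - z) / 2 := by fun_prop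
  have h2 : Differentiable ℂ fun z : ℂ => ((N : ℂ) - 1 + z) / 2 := by fun_prop
  refine Differentiable.fun_sum fun b _ => ?_
  exact (((diff_bc h1 _).mul (diff_bc h2 _)).mul ((diff_bc h2 _).mul (diff_bc h1 _))).mul
    ((diff_bc h2 _).mul (diff_bc h1 _))

theorem diff_tz (N : ℕ) : Differentiable ℂ fun z => tz N z := by
  unfold tz
  fun_prop

theorem diff_zu (N : ℕ) (i j : ℤ) (q : Fin N × Fin N) :
    Differentiable ℂ fun z => zu N z i j q := by
  have h : (fun z => zu N z i j q) = fun z => ∑ β ∈ range N, ∑ C ∈ range N,
      if aA N i j + β + C < N then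
        Wk N z (aA N i j) β C * Uv N (i - (N - 1 - aA N i j - β - C)) (j + β) q else 0 := by
    ext z
    unfold zu
    rw [Finset.sum_apply]
    refine sum_congr rfl fun β _ => ?_
    rw [Finset.sum_apply]
    refine sum_congr rfl fun C _ => ?_
    split_ifs
    · rfl
    · rfl
  rw [h]
  refine Differentiable.fun_sum fun β _ => Differentiable.fun_sum fun C _ => ?_
  split_ifs
  · exact (diff_Wk N _ _ _).mul_const _
  · exact differentiable_const _

/-- the derivatives of a multiple of `cz` vanish at the lattice points -/
theorem deriv_cz {N k : ℕ} {g : ℂ → ℂ} (hg : Differentiable ℂ g) :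
    deriv (fun z => cz N z * g z) (zl N k) = 0 := by
  have h0 : Complex.sin (Real.pi * (zl N k - N + 1) / 2) = 0 := by
    have : (Real.pi : ℂ) * (zl N k - N + 1) / 2 = (((k : ℤ) + 1 - N : ℤ) : ℂ) * Real.pi := by
      unfold zl
      push_cast
      ring
    rw [this]
    exact Complex.sin_int_mul_pi _
  have h1 : HasDerivAt (fun z : ℂ => Complex.sin (Real.pi * (z - N + 1) / 2))
      (deriv (fun z : ℂ => Complex.sin (Real.pi * (z - N + 1) / 2)) (zl N k)) (zl N k) :=
    (by fun_prop : Differentiable ℂ fun z : ℂ => Complex.sin (Real.pi * (z - N + 1) / 2))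
      |>.differentiableAt.hasDerivAt
  have h2 := (((h1.pow 2).const_mul (4 / (N : ℂ) ^ 2 * (-1) ^ N)).mul
    (hg (zl N k)).hasDerivAt).deriv
  unfold cz
  refine Eq.trans h2 ?_
  simp only [Pi.pow_apply]
  rw [h0]
  simp

theorem diff_G (N : ℕ) (i j : ℤ) (p : Polynomial ℂ) (q : Fin N × Fin N) :
    Differentiable ℂ fun z : ℂ => p.eval (tz N z) * Complex.sin (Real.pi * z / N) *
      zu N z i j q := by
  have h1 : Differentiable ℂ fun z : ℂ => p.eval (tz N z) :=
    p.differentiable.comp (diff_tz N)
  have h2 : Differentiable ℂ fun z : ℂ => Complex.sin (Real.pi * z / N) := by fun_prop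
  exact (h1.mul h2).mul (diff_zu N i j q)

theorem base (hB : ∀ N : ℕ, 0 < N → ∀ A β C : ℕ, A + β + C < N →
    ∑ k ∈ range N, deriv (fun z : ℂ => Complex.sin (Real.pi * z / N) * Wk N z A β C) (zl N k) =
      if β = 0 ∧ A + C + 1 = N then (-1) ^ (N - 1) * (Real.pi / N) else 0) {N : ℕ} (hN : 0 < N)
    (i j : ℤ) (q : Fin N × Fin N) :
    ∑ k ∈ range N, deriv (fun z : ℂ => Complex.sin (Real.pi * z / N) * zu N z i j q) (zl N k) =
      (-1) ^ (N - 1) * (Real.pi / N) * Uv N i j q := by
  set A := aA N i j with hA
  have hAN : A < N := by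
    have h1 := Int.emod_lt_of_pos (j - i - 1) (show (0 : ℤ) < N by omega)
    have h2 := Int.emod_nonneg (j - i - 1) (show (N : ℤ) ≠ 0 by omega)
    rw [hA]
    unfold aA
    omega
  have h2 : Differentiable ℂ fun z : ℂ => Complex.sin (Real.pi * z / N) := by fun_prop
  have h3 : ∀ β C : ℕ, Differentiable ℂ fun z : ℂ => Complex.sin (Real.pi * z / N) *
      Wk N z A β C := fun β C => h2.mul (diff_Wk N _ _ _)
  have h : (fun z => Complex.sin (Real.pi * z / N) * zu N z i j q) =
      fun z => ∑ β ∈ range N, ∑ C ∈ range N, if A + β + C < N then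
        (Complex.sin (Real.pi * z / N) * Wk N z A β C) *
          Uv N (i - (N - 1 - A - β - C)) (j + β) q else 0 := by
    ext z
    unfold zu
    rw [Finset.sum_apply, mul_sum]
    refine sum_congr rfl fun β _ => ?_
    rw [Finset.sum_apply, mul_sum]
    refine sum_congr rfl fun C _ => ?_
    rw [← hA]
    split_ifs
    · rw [Pi.smul_apply, smul_eq_mul, mul_assoc]
    · rw [Pi.zero_apply, mul_zero]
  rw [h]
  have h4 : ∀ k, deriv (fun z => ∑ β ∈ range N, ∑ C ∈ range N, if A + β + C < N then
        (Complex.sin (Real.pi * z / N) * Wk N z A β C) *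
          Uv N (i - (N - 1 - A - β - C)) (j + β) q else 0) (zl N k) =
      ∑ β ∈ range N, ∑ C ∈ range N, if A + β + C < N then
        deriv (fun z => Complex.sin (Real.pi * z / N) * Wk N z A β C) (zl N k) *
          Uv N (i - (N - 1 - A - β - C)) (j + β) q else 0 := by
    intro k
    have h5 : ∀ β C : ℕ, HasDerivAt (fun z => if A + β + C < N then
        (Complex.sin (Real.pi * z / N) * Wk N z A β C) *
          Uv N (i - (N - 1 - A - β - C)) (j + β) q else 0)
        (if A + β + C < N then
          deriv (fun z => Complex.sin (Real.pi * z / N) * Wk N z A β C) (zl N k) *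
          Uv N (i - (N - 1 - A - β - C)) (j + β) q else 0) (zl N k) := by
      intro β C
      split_ifs
      · exact ((h3 β C) (zl N k)).hasDerivAt.mul_const _
      · exact hasDerivAt_const _ _
    exact (HasDerivAt.fun_sum fun β _ => HasDerivAt.fun_sum fun C _ => h5 β C).deriv
  rw [sum_congr rfl fun k _ => h4 k, sum_comm]
  have h6 : ∀ β ∈ range N, (∑ k ∈ range N, ∑ C ∈ range N, if A + β + C < N then
        deriv (fun z => Complex.sin (Real.pi * z / N) * Wk N z A β C) (zl N k) *
          Uv N (i - (N - 1 - A - β - C)) (j + β) q else 0) =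
      ∑ C ∈ range N, if β = 0 ∧ A + C + 1 = N then
        (-1) ^ (N - 1) * (Real.pi / N) * Uv N i j q else 0 := by
    intro β _
    rw [sum_comm]
    refine sum_congr rfl fun C _ => ?_
    by_cases hc : A + β + C < N
    · simp only [if_pos hc]
      rw [← sum_mul, hB N hN A β C hc]
      split_ifs with h7
      · obtain ⟨h8, h9⟩ := h7
        have e1 : i - ((N : ℤ) - 1 - A - β - C) = i := by
          rw [h8]
          push_cast
          omega
        have e2 : j + ((β : ℕ) : ℤ) = j := by rw [h8]; simp
        rw [e1, e2]
        push_cast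
        rfl
      · rw [Complex.ofReal_zero, zero_mul]
    · simp only [if_neg hc]
      rw [sum_const_zero, if_neg]
      rintro ⟨h8, h9⟩
      omega
  rw [sum_congr rfl h6, sum_eq_single 0]
  · rw [sum_eq_single (N - 1 - A)]
    · rw [if_pos ⟨rfl, by omega⟩]
    · intro C _ hC
      rw [if_neg]
      rintro ⟨_, h9⟩
      omega
    · intro h8
      exact absurd (mem_range.2 (by omega)) h8
  · intro β _ hβ
    refine sum_eq_zero fun C _ => ?_
    rw [if_neg]
    rintro ⟨h8, _⟩
    exact hβ h8
  · intro h8
    exact absurd (mem_range.2 hN) h8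

theorem task_K2 : S_K2 := by
  intro hEU hPF hWR hCU hK1 hB1 N hN p i j q
  have hK := hK1 hEU hPF hWR hCU N hN
  have hB := hB1 hPF hWR
  revert q
  set M := Cas (rt N) (W (rt N) N) with hM
  set c : ℂ := (-1) ^ (N - 1) * (Real.pi / N) with hc
  induction p using Polynomial.induction_on' with
  | add p1 p2 h1 h2 =>
    intro q
    rw [map_add, add_mulVec, Pi.add_apply, mul_add, ← h1 q, ← h2 q, ← sum_add_distrib]
    refine sum_congr rfl fun k _ => ?_
    rw [← deriv_fun_add (diff_G N i j p1 q _) (diff_G N i j p2 q _)]
    congr 1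
    ext z
    rw [Polynomial.eval_add]
    ring
  | monomial n a =>
    induction n with
    | zero =>
      intro q
      rw [Polynomial.monomial_zero_left, Polynomial.aeval_C, Algebra.algebraMap_eq_smul_one,
        smul_mulVec, one_mulVec, Pi.smul_apply, smul_eq_mul, mul_left_comm, hc,
        ← base hB hN i j q, mul_sum]
      refine sum_congr rfl fun k _ => ?_
      have h2 : Differentiable ℂ fun z : ℂ => Complex.sin (Real.pi * z / N) := by fun_prop
      have h3 := (((h2.mul (diff_zu N i j q)) (zl N k)).hasDerivAt.const_mul a).deriv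
      refine Eq.trans ?_ h3
      congr 1
      ext z
      rw [Polynomial.eval_C, Pi.mul_apply]
      ring
    | succ n ih =>
      intro q
      have e1 : Polynomial.aeval M (Polynomial.monomial (n + 1) a) =
          M * Polynomial.aeval M (Polynomial.monomial n a) := by
        rw [Polynomial.aeval_monomial, Polynomial.aeval_monomial, ← Algebra.smul_def,
          ← Algebra.smul_def, pow_succ', mul_smul_comm]
      have e2 : ∀ z, (Polynomial.monomial (n + 1) a).eval (tz N z) *
          Complex.sin (Real.pi * z / N) * zu N z i j q =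
          (∑ q', M q q' * ((Polynomial.monomial n a).eval (tz N z) *
            Complex.sin (Real.pi * z / N) * zu N z i j q')) -
          cz N z * ((Polynomial.monomial n a).eval (tz N z) *
            Complex.sin (Real.pi * z / N) * Uv N i j q) := by
        intro z
        have h3 := congrFun (hK z i j) q
        rw [Pi.sub_apply, Pi.smul_apply, Pi.smul_apply, smul_eq_mul, smul_eq_mul, mulVec,
          dotProduct] at h3
        have h4 : (∑ q', M q q' * ((Polynomial.monomial n a).eval (tz N z) *
            Complex.sin (Real.pi * z / N) * zu N z i j q')) =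
            (Polynomial.monomial n a).eval (tz N z) * Complex.sin (Real.pi * z / N) *
              ∑ q', M q q' * zu N z i j q' := by
          rw [mul_sum]
          exact sum_congr rfl fun _ _ => by ring
        rw [h4, Polynomial.eval_monomial, Polynomial.eval_monomial]
        linear_combination (-(a * tz N z ^ n) * Complex.sin (Real.pi * z / N)) * h3
      have h5 : Differentiable ℂ fun z : ℂ => (Polynomial.monomial n a).eval (tz N z) *
            Complex.sin (Real.pi * z / N) * Uv N i j q := by
        have h1 : Differentiable ℂ fun z : ℂ => (Polynomial.monomial n a).eval (tz N z) :=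
          (Polynomial.monomial n a).differentiable.comp (diff_tz N)
        have h2 : Differentiable ℂ fun z : ℂ => Complex.sin (Real.pi * z / N) := by fun_prop
        exact (h1.mul h2).mul_const _
      have hcz : Differentiable ℂ fun z : ℂ => cz N z := by
        unfold cz
        fun_prop
      rw [e1, ← mulVec_mulVec, mulVec, dotProduct, mul_sum]
      have h6 : ∀ k, deriv (fun z => (Polynomial.monomial (n + 1) a).eval (tz N z) *
          Complex.sin (Real.pi * z / N) * zu N z i j q) (zl N k) =
          ∑ q', M q q' * deriv (fun z => (Polynomial.monomial n a).eval (tz N z) *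
            Complex.sin (Real.pi * z / N) * zu N z i j q') (zl N k) := by
        intro k
        have h7 := HasDerivAt.fun_sum (u := univ) fun (q' : Fin N × Fin N) _ =>
          ((diff_G N i j (Polynomial.monomial n a) q') (zl N k)).hasDerivAt.const_mul (M q q')
        have h8 : HasDerivAt (fun z => cz N z * ((Polynomial.monomial n a).eval (tz N z) *
            Complex.sin (Real.pi * z / N) * Uv N i j q)) 0 (zl N k) := by
          rw [← deriv_cz h5 (N := N) (k := k)]
          exact ((hcz.mul h5) (zl N k)).hasDerivAt
        have h9 := (h7.sub h8).deriv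
        rw [sub_zero] at h9
        rw [← h9]
        congr 1
        ext z
        exact e2 z
      rw [sum_congr rfl fun k _ => h6 k, sum_comm]
      refine sum_congr rfl fun q' _ => ?_
      rw [← mul_sum, ih q']
      ring

end Pool.Agent.Q261.KN
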