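import Pool.Agent.Q99.KN.Stm1

/-!
# The minimal polynomial of the Casimir operator of `V_N ⊗ V_N`
-/

set_option autoImplicit false

namespace Pool.Agent.Q261.KN

open Matrix Finset
open Pool.Agent.H550R3.Jones (WM IsMod IsInt Gen br brf W irr)
open Pool.Agent.H897R.J (HasWt)
open Pool.Agent.Q191.FT (Cas lam Sc Cas_vec Cas_E)
open Pool.Agent.Q99.KN

variable {ι : Type} [Fintype ι] [DecidableEq ι]

theorem cas_wt {v : ℂ} {M : WM ι} (hM : IsMod v M) {μ : ℤ} {x : ι → ℂ} (hx : HasWt M μ x) :
    HasWt M μ (Cas v M *ᵥ x) := by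
  rw [Cas_vec hx]
  intro i hi
  rw [Pi.add_apply] at hi
  by_contra hc
  apply hi
  have h1 : (M.F *ᵥ (M.E *ᵥ x)) i = 0 := by
    by_contra h
    have h2 := Pool.Agent.H897R.J.wt_F hM (Pool.Agent.Q191.FT.wt_E hM hx) i h
    omega
  have h2 : x i = 0 := by
    by_contra h
    exact hc (hx i h)
  rw [h1, Pi.smul_apply, h2, smul_zero, add_zero]

/-- the product of the first `j` factors, from above -/
noncomputable def PP (v : ℂ) (N : ℕ) : ℕ → Polynomial ℂ
  | 0 => 1
  | j + 1 => (Polynomial.X - Polynomial.C (lam v (2 * ((N : ℤ) - 1 - j) + 1))) * PP v N j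

theorem aeval_wt {v : ℂ} {M : WM ι} (hM : IsMod v M) (p : Polynomial ℂ) {μ : ℤ} {x : ι → ℂ}
    (hx : HasWt M μ x) : HasWt M μ (Polynomial.aeval (Cas v M) p *ᵥ x) := by
  induction p using Polynomial.induction_on' with
  | add p q hp hq =>
    rw [map_add, add_mulVec]
    intro i hi
    rw [Pi.add_apply] at hi
    by_contra hc
    apply hi
    have h1 : (Polynomial.aeval (Cas v M) p *ᵥ x) i = 0 := by
      by_contra h
      exact hc (hp i h)
    have h2 : (Polynomial.aeval (Cas v M) q *ᵥ x) i = 0 := by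
      by_contra h
      exact hc (hq i h)
    rw [h1, h2, add_zero]
  | monomial n a =>
    rw [Polynomial.aeval_monomial, ← Algebra.smul_def, smul_mulVec]
    have h1 : HasWt M μ ((Cas v M) ^ n *ᵥ x) := by
      induction n with
      | zero => simpa using hx
      | succ n ih =>
        rw [pow_succ', ← mulVec_mulVec]
        exact cas_wt hM ih
    intro i hi
    rw [Pi.smul_apply] at hi
    exact h1 i (fun h => hi (by rw [h, smul_zero]))

theorem aeval_E {v : ℂ} (hv : v ≠ 0) {M : WM ι} (hM : IsMod v M) (p : Polynomial ℂ) (x : ι → ℂ) :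
    Polynomial.aeval (Cas v M) p *ᵥ (M.E *ᵥ x) = M.E *ᵥ (Polynomial.aeval (Cas v M) p *ᵥ x) := by
  rw [mulVec_mulVec, mulVec_mulVec]
  congr 1
  induction p using Polynomial.induction_on' with
  | add p q hp hq => rw [map_add, add_mul, mul_add, hp, hq]
  | monomial n a =>
    have h : Commute (Cas v M) M.E := Cas_E hv hM
    have h2 : (Cas v M) ^ n * M.E = M.E * (Cas v M) ^ n := h.pow_left n
    rw [Polynomial.aeval_monomial, ← Algebra.smul_def, smul_mul_assoc, h2, mul_smul_comm]

theorem PP_eq (v : ℂ) (N j : ℕ) : PP v N j =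
    ∏ d ∈ range j, (Polynomial.X - Polynomial.C (lam v (2 * ((N : ℤ) - 1 - d) + 1))) := by
  induction j with
  | zero => rfl
  | succ j ih => rw [prod_range_succ, ← ih, PP, mul_comm]

theorem wt_W (v : ℂ) (N : ℕ) (p : Fin N × Fin N) :
    (W v N).wt p = 2 * ((N : ℤ) - 1) - 2 * (((p.1 : ℕ) : ℤ) + (p.2 : ℕ)) := by
  change ((N : ℤ) - 1 - 2 * (p.1 : ℕ)) + ((N : ℤ) - 1 - 2 * (p.2 : ℕ)) = _
  ring

theorem mod_W {v : ℂ} (hv : v ≠ 0) (N : ℕ) : IsMod v (W v N) :=
  (Pool.Agent.H345J.taskMod v hv).2 _ _ _ _ ((Pool.Agent.H345J.taskMod v hv).1 N)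
    ((Pool.Agent.H345J.taskMod v hv).1 N)

theorem E_W (v : ℂ) (N : ℕ) (y : Fin N × Fin N → ℂ) (a b : Fin N) :
    ((W v N).E *ᵥ y) (a, b) =
      (if h : (a : ℕ) + 1 < N then br v ((N : ℤ) - (a : ℕ) - 1) *
        v ^ ((N : ℤ) - 1 - 2 * (b : ℕ)) * y (⟨a + 1, h⟩, b) else 0) +
      (if h : (b : ℕ) + 1 < N then br v ((N : ℤ) - (b : ℕ) - 1) * y (a, ⟨b + 1, h⟩) else 0) := by
  have hE : (W v N).E = Matrix.kroneckerMap (· * ·) (irr v N).E ((irr v N).K v 1) +
      Matrix.kroneckerMap (· * ·) (1 : Matrix (Fin N) (Fin N) ℂ) (irr v N).E := rfl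
  rw [hE, add_mulVec, Pi.add_apply]
  congr 1
  · rw [mulVec, dotProduct, Fintype.sum_prod_type]
    simp only [kroneckerMap_apply]
    have h1 : ∀ x : Fin N, ∑ y1 : Fin N, (irr v N).E a x * (irr v N).K v 1 b y1 * y (x, y1) =
        (irr v N).E a x * v ^ ((N : ℤ) - 1 - 2 * (b : ℕ)) * y (x, b) := by
      intro x
      rw [sum_eq_single b]
      · unfold WM.K
        rw [diagonal_apply_eq, one_mul]
        rfl
      · intro c _ hc
        unfold WM.K
        rw [diagonal_apply_ne _ (Ne.symm hc)]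
        ring
      · intro h
        exact absurd (mem_univ _) h
    simp only [h1]
    split_ifs with h
    · rw [sum_eq_single (⟨a + 1, h⟩ : Fin N)]
      · have : (irr v N).E a ⟨a + 1, h⟩ = br v ((N : ℤ) - (a : ℕ) - 1) := by
          change (if _ then _ else _) = _
          rw [if_pos rfl]
          congr 1
          push_cast
          ring
        rw [this]
      · intro c _ hc
        have : (irr v N).E a c = 0 := by
          change (if (c : ℕ) = a + 1 then _ else _) = _
          rw [if_neg]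
          intro h2
          exact hc (Fin.ext h2)
        rw [this]
        ring
      · intro h
        exact absurd (mem_univ _) h
    · refine sum_eq_zero fun c _ => ?_
      have : (irr v N).E a c = 0 := by
        change (if (c : ℕ) = a + 1 then _ else _) = _
        rw [if_neg]
        intro h2
        exact h (h2 ▸ c.2)
      rw [this]
      ring
  · rw [mulVec, dotProduct, Fintype.sum_prod_type]
    simp only [kroneckerMap_apply]
    rw [sum_eq_single a]
    · simp only [one_apply_eq, one_mul]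
      split_ifs with h
      · rw [sum_eq_single (⟨b + 1, h⟩ : Fin N)]
        · have : (irr v N).E b ⟨b + 1, h⟩ = br v ((N : ℤ) - (b : ℕ) - 1) := by
            change (if _ then _ else _) = _
            rw [if_pos rfl]
            congr 1
            push_cast
            ring
          rw [this]
        · intro c _ hc
          have : (irr v N).E b c = 0 := by
            change (if (c : ℕ) = b + 1 then _ else _) = _
            rw [if_neg]
            intro h2
            exact hc (Fin.ext h2)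
          rw [this]
          ring
        · intro h
          exact absurd (mem_univ _) h
      · refine sum_eq_zero fun c _ => ?_
        have : (irr v N).E b c = 0 := by
          change (if (c : ℕ) = b + 1 then _ else _) = _
          rw [if_neg]
          intro h2
          exact h (h2 ▸ c.2)
        rw [this]
        ring
    · intro c _ hc
      refine sum_eq_zero fun d _ => ?_
      rw [one_apply_ne (Ne.symm hc)]
      ring
    · intro h
      exact absurd (mem_univ _) h

/-- `E` is injective on the negative weight spaces -/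
theorem E_inj {v : ℂ} (hv : v ≠ 0) {N : ℕ} (hb : ∀ k : ℕ, 0 < k → k < N → br v k ≠ 0) {j : ℕ}
    (hj : N ≤ j) {y : Fin N × Fin N → ℂ} (hE : (W v N).E *ᵥ y = 0) :
    ∀ (a b : ℕ) (ha : a < N) (hb' : b < N), a + b = j → y (⟨a, ha⟩, ⟨b, hb'⟩) = 0 := by
  intro a
  induction a with
  | zero => intro b _ hb' h; omega
  | succ a ih =>
    intro b ha hb' h
    have h1 := congrFun hE (⟨a, by omega⟩, ⟨b, hb'⟩)
    rw [E_W, dif_pos (show a + 1 < N from ha), Pi.zero_apply] at h1
    have h2 : (if h : ((⟨b, hb'⟩ : Fin N) : ℕ) + 1 < N then br v ((N : ℤ) - ((⟨b, hb'⟩ : Fin N) : ℕ) - 1)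
        * y (⟨a, by omega⟩, ⟨((⟨b, hb'⟩ : Fin N) : ℕ) + 1, h⟩) else 0) = 0 := by
      split_ifs with h3
      · rw [ih (b + 1) (by omega) h3 (by omega), mul_zero]
      · rfl
    rw [h2, add_zero] at h1
    refine (mul_eq_zero.1 h1).resolve_left (mul_ne_zero ?_ (zpow_ne_zero _ hv))
    have h3 := hb (N - a - 1) (by omega) (by omega)
    have h4 : ((N - a - 1 : ℕ) : ℤ) = (N : ℤ) - a - 1 := by omega
    rw [h4] at h3
    exact h3

theorem claim {v : ℂ} (hv : v ≠ 0) {N : ℕ} (hN : 0 < N)
    (hb : ∀ k : ℕ, 0 < k → k < N → br v k ≠ 0) (j : ℕ) :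
    ∀ x : Fin N × Fin N → ℂ, HasWt (W v N) (2 * ((N : ℤ) - 1) - 2 * j) x →
      Polynomial.aeval (Cas v (W v N)) (PP v N (min (j + 1) N)) *ᵥ x = 0 := by
  have hM := mod_W hv N
  have step : ∀ j : ℕ, ∀ x : Fin N × Fin N → ℂ, HasWt (W v N) (2 * ((N : ℤ) - 1) - 2 * j) x →
      Polynomial.aeval (Cas v (W v N)) (PP v N (min j N)) *ᵥ ((W v N).E *ᵥ x) = 0 →
      Polynomial.aeval (Cas v (W v N)) (PP v N (min (j + 1) N)) *ᵥ x = 0 := by
    intro j x hx h
    rw [aeval_E hv hM] at h
    have hy := aeval_wt hM (PP v N (min j N)) hx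
    rcases lt_or_ge j N with hj | hj
    · rw [min_eq_left hj.le] at h hy
      rw [min_eq_left (show j + 1 ≤ N by omega), PP, map_mul, ← mulVec_mulVec, map_sub,
        Polynomial.aeval_X, Polynomial.aeval_C, sub_mulVec, Cas_vec hy, h, mulVec_zero, zero_add,
        Algebra.algebraMap_eq_smul_one, smul_mulVec, one_mulVec]
      have e : 2 * ((N : ℤ) - 1) - 2 * j + 1 = 2 * ((N : ℤ) - 1 - j) + 1 := by ring
      rw [e, sub_self]
    · rw [min_eq_right hj] at h hy
      rw [min_eq_right (show N ≤ j + 1 by omega)]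
      ext ⟨a, b⟩
      rw [Pi.zero_apply]
      by_contra hc
      have h1 := hy _ hc
      rw [wt_W] at h1
      dsimp only at h1
      exact hc (E_inj hv hb hj h a b a.2 b.2 (by omega))
  induction j with
  | zero =>
    intro x hx
    refine step 0 x hx ?_
    have h1 : (W v N).E *ᵥ x = 0 := by
      have := Pool.Agent.Q191.FT.wt_E hM hx
      ext p
      by_contra hc
      have h2 := this p hc
      rw [wt_W] at h2
      omega
    rw [h1, mulVec_zero]
  | succ j ih =>
    intro x hx
    refine step (j + 1) x hx (ih _ ?_)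
    have := Pool.Agent.Q191.FT.wt_E hM hx
    intro p hp
    rw [this p hp]
    push_cast
    ring

theorem PP_dvd (v : ℂ) (N : ℕ) {j k : ℕ} (h : j ≤ k) : PP v N j ∣ PP v N k := by
  induction k, h using Nat.le_induction with
  | base => exact dvd_rfl
  | succ k _ ih => exact ih.mul_left _

theorem task_MP : S_MP := by
  intro N hN v hv hb
  have h0 : (∏ d ∈ range N, (Polynomial.X - Polynomial.C (lam v (2 * (d : ℤ) + 1)))) =
      PP v N N := by
    rw [PP_eq, ← prod_range_reflect]
    refine prod_congr rfl fun d hd => ?_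
    rw [mem_range] at hd
    congr 3
    omega
  rw [h0]
  refine Matrix.ext_of_mulVec_single fun p => ?_
  rw [zero_mulVec]
  have hx : HasWt (W v N) (2 * ((N : ℤ) - 1) - 2 * (((p.1 : ℕ) + (p.2 : ℕ) : ℕ) : ℤ))
      (Pi.single p (1 : ℂ)) := by
    intro i hi
    by_cases h : i = p
    · rw [h, wt_W]
      push_cast
      ring
    · exact absurd (by rw [Pi.single_apply, if_neg h]) hi
  have h1 := claim hv hN hb _ _ hx
  obtain ⟨q, hq⟩ := PP_dvd v N (min_le_right ((p.1 : ℕ) + (p.2 : ℕ) + 1) N)
  rw [hq, mul_comm, map_mul, ← mulVec_mulVec, h1, mulVec_zero]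

end Pool.Agent.Q261.KN
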