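import Pool.Agent.Q99.KN.Stm1

/-!
# Spectral decomposition of an operator at a generic point
-/

set_option autoImplicit false

namespace Pool.Agent.Q261.KN

open Matrix Finset
open Pool.Agent.H550R3.Jones (WM IsMod IsInt Gen br brf W irr)
open Pool.Agent.Q191.FT (Cas lam Sc lam_ne)
open Pool.Agent.Q99.KN

/-- `(X - v_i) ℓ_i` is a multiple of the nodal polynomial -/
theorem nodal_dvd {N : ℕ} (x : ℕ → ℂ) {d : ℕ} (hd : d ∈ range N) :
    (∏ e ∈ range N, (Polynomial.X - Polynomial.C (x e))) ∣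
      (Polynomial.X - Polynomial.C (x d)) * Lagrange.basis (range N) x d := by
  refine ⟨Polynomial.C (Lagrange.nodalWeight (range N) x d), ?_⟩
  have h1 : Lagrange.basis (range N) x d = Polynomial.C (Lagrange.nodalWeight (range N) x d) *
      Lagrange.nodal ((range N).erase d) x := by
    unfold Lagrange.basis Lagrange.nodalWeight Lagrange.nodal Lagrange.basisDivisor
    rw [prod_mul_distrib, ← map_prod]
  rw [h1, ← Lagrange.nodal_eq, Lagrange.nodal_eq_mul_nodal_erase hd]
  ring

theorem task_PJ : S_PJ := by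
  intro hMP N hN u hu T f hT
  have hv : u ^ 2 ≠ 0 := pow_ne_zero 2 hu.1
  set x : ℕ → ℂ := fun d => lam (u ^ 2) (2 * (d : ℤ) + 1) with hx
  set M := W (u ^ 2) N
  have hinj : Set.InjOn x (range N : Finset ℕ) := by
    intro a _ b _ hab
    by_contra hne
    exact lam_ne hu (a := 2 * (a : ℤ) + 1) (b := 2 * (b : ℤ) + 1) (by omega) (by omega)
      ⟨(a : ℤ) - b, by ring⟩ hab
  have h1 : ∑ d ∈ range N, Polynomial.aeval (Cas (u ^ 2) M) (Lagrange.basis (range N) x d) =
      (1 : Matrix (Fin N × Fin N) (Fin N × Fin N) ℂ) := by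
    rw [← map_sum, Lagrange.sum_basis hinj ⟨0, mem_range.2 hN⟩, map_one]
  have h2 : ∀ d ∈ range N, T * Polynomial.aeval (Cas (u ^ 2) M) (Lagrange.basis (range N) x d) =
      f (2 * (d : ℤ) + 1) • Polynomial.aeval (Cas (u ^ 2) M) (Lagrange.basis (range N) x d) := by
    intro d hd
    refine Matrix.ext_of_mulVec_single fun p => ?_
    rw [← mulVec_mulVec, smul_mulVec]
    refine hT (2 * (d : ℤ) + 1) ⟨(d : ℤ) - ((N : ℤ) - 1), by ring⟩ _ ?_
    obtain ⟨q, hq⟩ := nodal_dvd x hd
    have h3 := congrArg (Polynomial.aeval (Cas (u ^ 2) M)) hq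
    rw [map_mul, map_mul, hMP N hN (u ^ 2) hv (fun k hk _ => hu.2 k hk), zero_mul, map_sub,
      Polynomial.aeval_X, Polynomial.aeval_C, Algebra.algebraMap_eq_smul_one, sub_mul,
      smul_mul_assoc, one_mul, sub_eq_zero] at h3
    rw [mulVec_mulVec, h3, smul_mulVec]
  calc T = T * 1 := (mul_one T).symm
    _ = _ := by
      rw [← h1, mul_sum]
      exact sum_congr rfl h2

end Pool.Agent.Q261.KN
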